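import Pool.Agent.H151R2.STS.Defs

/-!
# Automorphism groups of Steiner triple systems are small
-/

namespace Pool.Agent.H151R2.STS

variable {V : Type}

/-- A set of points closed under the operation of taking third points of blocks. -/
def Clo (B : Set (Set V)) (W : Set V) : Prop :=
  ∀ b ∈ B, ∀ x ∈ b, ∀ y ∈ b, x ∈ W → y ∈ W → x ≠ y → b ⊆ W

theorem eq_triple {b : Set V} (hb : b.ncard = 3) {x y z : V} (hx : x ∈ b) (hy : y ∈ b)
    (hz : z ∈ b) (hxy : x ≠ y) (hzx : z ≠ x) (hzy : z ≠ y) : b = {x, y, z} := by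
  have hfin : b.Finite := Set.finite_of_ncard_ne_zero (by rw [hb]; norm_num)
  symm
  apply Set.eq_of_subset_of_ncard_le _ _ hfin
  · intro w hw
    simp only [Set.mem_insert_iff, Set.mem_singleton_iff] at hw
    rcases hw with rfl | rfl | rfl <;> assumption
  · rw [hb, Set.ncard_eq_three.2 ⟨x, y, z, hxy, hzx.symm, hzy.symm, rfl⟩]

theorem exists_third {B : Set (Set V)} (hB : IsSTS B) {x y : V} (h : x ≠ y) :
    ∃ z, z ≠ x ∧ z ≠ y ∧ ({x, y, z} : Set V) ∈ B := by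
  obtain ⟨b, ⟨hb, hx, hy⟩, -⟩ := hB.2 x y h
  have h3 := hB.1 b hb
  have hfin : b.Finite := Set.finite_of_ncard_ne_zero (by rw [h3]; norm_num)
  obtain ⟨z, hz, hzn⟩ : ∃ z ∈ b, z ∉ ({x, y} : Set V) := by
    refine Set.exists_mem_notMem_of_ncard_lt_ncard ?_ (Set.toFinite _)
    rw [h3, Set.ncard_pair h]; norm_num
  simp only [Set.mem_insert_iff, Set.mem_singleton_iff, not_or] at hzn
  refine ⟨z, hzn.1, hzn.2, ?_⟩
  rw [← eq_triple h3 hx hy hz h hzn.1 hzn.2]
  exact hb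

theorem clo_agree {B : Set (Set V)} (hB : IsSTS B) {σ τ : V ≃ V} (hσ : img σ B = B)
    (hτ : img τ B = B) : Clo B {x | σ x = τ x} := by
  intro b hb x hx y hy hxW hyW hxy z hz
  simp only [Set.mem_ofPred_eq] at hxW hyW ⊢
  by_cases hzx : z = x
  · rw [hzx]; exact hxW
  by_cases hzy : z = y
  · rw [hzy]; exact hyW
  have h1 : σ '' b ∈ B := by
    have : σ '' b ∈ img σ B := ⟨b, hb, rfl⟩
    rwa [hσ] at this
  have h2 : τ '' b ∈ B := by
    have : τ '' b ∈ img τ B := ⟨b, hb, rfl⟩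
    rwa [hτ] at this
  have hne : σ x ≠ σ y := fun h => hxy (σ.injective h)
  have h3 : σ '' b = τ '' b :=
    (hB.2 (σ x) (σ y) hne).unique ⟨h1, ⟨x, hx, rfl⟩, ⟨y, hy, rfl⟩⟩
      ⟨h2, ⟨x, hx, hxW.symm⟩, ⟨y, hy, hyW.symm⟩⟩
  have h4 : τ z ∈ σ '' b := by rw [h3]; exact ⟨z, hz, rfl⟩
  obtain ⟨w, hw, hwz⟩ := h4
  have h5 := eq_triple (hB.1 b hb) hx hy hz hxy hzx hzy
  rw [h5] at hw
  simp only [Set.mem_insert_iff, Set.mem_singleton_iff] at hw
  rcases hw with rfl | rfl | rfl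
  · exact absurd (τ.injective (hxW.symm.trans hwz)).symm hzx
  · exact absurd (τ.injective (hyW.symm.trans hwz)).symm hzy
  · exact hwz

theorem clo_grow [Finite V] {B : Set (Set V)} (hB : IsSTS B) {W W' : Set V} (hW : Clo B W)
    (hW' : Clo B W') (hsub : W ⊆ W') {v : V} (hv : v ∉ W) (hv' : v ∈ W') :
    2 * W.ncard + 1 ≤ W'.ncard := by
  classical
  have hch : ∀ w : V, ∃ z, v ≠ w → z ≠ v ∧ z ≠ w ∧ ({v, w, z} : Set V) ∈ B := by
    intro w
    by_cases h : v = w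
    · exact ⟨v, fun h' => absurd h h'⟩
    · obtain ⟨z, hz⟩ := exists_third hB h
      exact ⟨z, fun _ => hz⟩
  choose f hf using hch
  have hne : ∀ w ∈ W, v ≠ w := fun w hw h => hv (h ▸ hw)
  have hinj : Set.InjOn f W := by
    intro w hw w' hw' h
    obtain ⟨h1, h2, h3⟩ := hf w (hne w hw)
    obtain ⟨h1', h2', h3'⟩ := hf w' (hne w' hw')
    have h4 : ({v, w, f w} : Set V) = {v, w', f w'} :=
      (hB.2 v (f w) h1.symm).unique ⟨h3, by simp, by simp⟩ ⟨h3', by simp, by simp [h]⟩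
    have h5 : w ∈ ({v, w', f w'} : Set V) := by rw [← h4]; simp
    simp only [Set.mem_insert_iff, Set.mem_singleton_iff] at h5
    rcases h5 with h5 | h5 | h5
    · exact absurd h5.symm (hne w hw)
    · exact h5
    · rw [← h] at h5; exact absurd h5.symm h2
  have hnot : ∀ w ∈ W, f w ∉ W := by
    intro w hw hfw
    obtain ⟨h1, h2, h3⟩ := hf w (hne w hw)
    have := hW _ h3 w (by simp) (f w) (by simp) hw hfw h2.symm
    exact hv (this (by simp))
  have hsub2 : insert v (W ∪ f '' W) ⊆ W' := by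
    intro u hu
    rcases hu with rfl | hu | ⟨w, hw, rfl⟩
    · exact hv'
    · exact hsub hu
    · obtain ⟨h1, h2, h3⟩ := hf w (hne w hw)
      exact hW' _ h3 v (by simp) w (by simp) hv' (hsub hw) (hne w hw) (by simp)
  have hcard : (insert v (W ∪ f '' W)).ncard = 2 * W.ncard + 1 := by
    rw [Set.ncard_insert_of_notMem, Set.ncard_union_eq, hinj.ncard_image]
    · ring
    · rw [Set.disjoint_left]
      rintro _ hu ⟨w, hw, rfl⟩
      exact hnot w hw hu
    · rintro (hu | ⟨w, hw, hu⟩)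
      · exact hv hu
      · exact (hf w (hne w hw)).1 hu
  rw [← hcard]
  exact Set.ncard_le_ncard hsub2

theorem clo_univ (B : Set (Set V)) : Clo B Set.univ := fun _ _ _ _ _ _ _ _ _ => Set.subset_univ _

theorem clo_sInter (B : Set (Set V)) (S : Set (Set V)) (h : ∀ W ∈ S, Clo B W) :
    Clo B (⋂₀ S) := by
  intro b hb x hx y hy hxW hyW hxy
  apply Set.subset_sInter
  intro W hW
  exact h W hW b hb x hx y hy (hxW W hW) (hyW W hW) hxy

theorem count_aux [Finite V] {B : Set (Set V)} (hB : IsSTS B) {n : ℕ} (hn : Nat.card V = n)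
    (hn0 : 0 < n) (j : ℕ) : ∀ (W : Set V) (σ₀ : V ≃ V), Clo B W →
      n + 1 < (W.ncard + 1) * 2 ^ (j + 1) →
      {σ : V ≃ V | img σ B = B ∧ ∀ w ∈ W, σ w = σ₀ w}.ncard ≤ n ^ j := by
  classical
  have hone : ∀ (W : Set V) (σ₀ : V ≃ V), W = Set.univ →
      {σ : V ≃ V | img σ B = B ∧ ∀ w ∈ W, σ w = σ₀ w}.ncard ≤ 1 := by
    intro W σ₀ hW
    have : {σ : V ≃ V | img σ B = B ∧ ∀ w ∈ W, σ w = σ₀ w} ⊆ {σ₀} := by
      rintro σ ⟨-, h⟩
      simp only [Set.mem_singleton_iff]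
      ext w
      exact h w (by rw [hW]; trivial)
    calc _ ≤ ({σ₀} : Set (V ≃ V)).ncard := Set.ncard_le_ncard this
      _ = 1 := Set.ncard_singleton _
  induction j with
  | zero =>
    intro W σ₀ hW hcard
    have hWu : W = Set.univ := by
      by_contra h
      obtain ⟨v, hv⟩ := (Set.ne_univ_iff_exists_notMem W).1 h
      have := clo_grow hB hW (clo_univ B) (Set.subset_univ _) hv (Set.mem_univ v)
      rw [Set.ncard_univ, hn] at this
      omega
    simpa using hone W σ₀ hWu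
  | succ j ih =>
    intro W σ₀ hW hcard
    by_cases hWu : W = Set.univ
    · exact (hone W σ₀ hWu).trans (Nat.one_le_pow _ _ hn0)
    obtain ⟨v, hv⟩ := (Set.ne_univ_iff_exists_notMem W).1 hWu
    set S : Set (Set V) := {W' | Clo B W' ∧ W ⊆ W' ∧ v ∈ W'} with hS
    set K := ⋂₀ S with hK
    have hKclo : Clo B K := clo_sInter B S (fun W' h => h.1)
    have hWK : W ⊆ K := Set.subset_sInter (fun W' h => h.2.1)
    have hvK : v ∈ K := fun W' h => h.2.2
    have hgrow := clo_grow hB hW hKclo hWK hv hvK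
    have hKcard : n + 1 < (K.ncard + 1) * 2 ^ (j + 1) := by
      have h1 : (W.ncard + 1) * 2 ^ (j + 1 + 1) = (2 * W.ncard + 1 + 1) * 2 ^ (j + 1) := by ring
      have h2 : (2 * W.ncard + 1 + 1) * 2 ^ (j + 1) ≤ (K.ncard + 1) * 2 ^ (j + 1) :=
        Nat.mul_le_mul_right _ (by omega)
      omega
    have : Fintype V := Fintype.ofFinite V
    have hcover : {σ : V ≃ V | img σ B = B ∧ ∀ w ∈ W, σ w = σ₀ w} ⊆
        ⋃ u ∈ (Finset.univ : Finset V),
          {σ : V ≃ V | (img σ B = B ∧ ∀ w ∈ W, σ w = σ₀ w) ∧ σ v = u} := by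
      intro σ hσ
      simp only [Set.mem_iUnion]
      exact ⟨σ v, Finset.mem_univ _, hσ, rfl⟩
    have hpiece : ∀ u : V,
        {σ : V ≃ V | (img σ B = B ∧ ∀ w ∈ W, σ w = σ₀ w) ∧ σ v = u}.ncard ≤ n ^ j := by
      intro u
      by_cases hem : {σ : V ≃ V | (img σ B = B ∧ ∀ w ∈ W, σ w = σ₀ w) ∧ σ v = u} = ∅
      · rw [hem]; simp
      obtain ⟨σ₁, ⟨h1, h2⟩, h3⟩ := Set.nonempty_iff_ne_empty.2 hem
      refine (Set.ncard_le_ncard ?_).trans (ih K σ₁ hKclo hKcard)
      rintro σ ⟨⟨h1', h2'⟩, h3'⟩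
      refine ⟨h1', fun w hw => ?_⟩
      have hcl := clo_agree hB h1' h1
      have : w ∈ {x | σ x = σ₁ x} := by
        apply hw
        refine ⟨hcl, fun x hx => ?_, ?_⟩
        · simp only [Set.mem_ofPred_eq]; rw [h2' x hx, h2 x hx]
        · simp only [Set.mem_ofPred_eq]; rw [h3', h3]
      exact this
    calc _ ≤ (⋃ u ∈ (Finset.univ : Finset V),
          {σ : V ≃ V | (img σ B = B ∧ ∀ w ∈ W, σ w = σ₀ w) ∧ σ v = u}).ncard :=
          Set.ncard_le_ncard hcover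
      _ ≤ ∑ u ∈ (Finset.univ : Finset V),
          {σ : V ≃ V | (img σ B = B ∧ ∀ w ∈ W, σ w = σ₀ w) ∧ σ v = u}.ncard :=
          Finset.set_ncard_biUnion_le _ _
      _ ≤ ∑ _u ∈ (Finset.univ : Finset V), n ^ j := Finset.sum_le_sum (fun u _ => hpiece u)
      _ = n ^ (j + 1) := by
          rw [Finset.sum_const, Finset.card_univ, smul_eq_mul, ← Nat.card_eq_fintype_card, hn]
          ring

/-- A Steiner triple system on `n` points has at most `n ^ ⌊log₂ (n+1)⌋` automorphisms. -/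
theorem aut_le [Finite V] {B : Set (Set V)} (hB : IsSTS B) {n : ℕ} (hn : Nat.card V = n)
    (hn0 : 0 < n) : {σ : V ≃ V | img σ B = B}.ncard ≤ n ^ Nat.log 2 (n + 1) := by
  have h := count_aux hB hn hn0 (Nat.log 2 (n + 1)) ∅ (Equiv.refl V)
    (fun b hb x hx y hy hxW => absurd hxW (Set.notMem_empty x))
    (by
      have := Nat.lt_pow_succ_log_self (b := 2) (by norm_num) (n + 1)
      simpa using this)
  simpa using h

end Pool.Agent.H151R2.STS
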