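import Pool.Agent.H151R2.STS.Family

/-!
# Peltesohn's base triples
-/

namespace Pool.Agent.H151R2.STS

set_option maxHeartbeats 4000000

/-- First entries, class 1 mod 18. -/
def X1 (s i : ℕ) : ℕ :=
  if i < 0 + (s) then 3 * i + 1 else if i < s + (s) then 3 * (i - (s)) + 2 else if i < 2 * s + (s - 1) then 3 * (i - (2 * s)) + 3 else 3 * s

/-- Second entries, class 1 mod 18. -/
def Y1 (s i : ℕ) : ℕ :=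
  if i < 0 + (s) then 4 * s - i + 1 else if i < s + (s) then 8 * s - (i - (s)) else if i < 2 * s + (s - 1) then 6 * s - 2 * (i - (2 * s)) - 1 else 3 * s + 1

theorem cases1 {s i : ℕ} (hs : 1 ≤ s) (hi : i < 3 * s) :
    (∃ r, r < s ∧ i = 0 + r ∧ X1 s i = 3 * r + 1 ∧ Y1 s i = 4 * s - r + 1) ∨
    (∃ r, r < s ∧ i = s + r ∧ X1 s i = 3 * r + 2 ∧ Y1 s i = 8 * s - r) ∨
    (∃ r, r < s - 1 ∧ i = 2 * s + r ∧ X1 s i = 3 * r + 3 ∧ Y1 s i = 6 * s - 2 * r - 1) ∨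
    (i = 3 * s - 1 ∧ X1 s i = 3 * s ∧ Y1 s i = 3 * s + 1) := by
  unfold X1 Y1
  by_cases h0 : i < 0 + (s)
  · refine Or.inl ⟨i, by omega, by omega, ?_, ?_⟩
    · rw [if_pos h0]
    · rw [if_pos h0]
  by_cases h1 : i < s + (s)
  · refine Or.inr <| Or.inl ⟨i - (s), by omega, by omega, ?_, ?_⟩
    · rw [if_neg h0, if_pos h1]
    · rw [if_neg h0, if_pos h1]
  by_cases h2 : i < 2 * s + (s - 1)
  · refine Or.inr <| Or.inr <| Or.inl ⟨i - (2 * s), by omega, by omega, ?_, ?_⟩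
    · rw [if_neg h0, if_neg h1, if_pos h2]
    · rw [if_neg h0, if_neg h1, if_pos h2]
  refine Or.inr <| Or.inr <| Or.inr <| ⟨by omega, ?_, ?_⟩
  · rw [if_neg h0, if_neg h1, if_neg h2]
  · rw [if_neg h0, if_neg h1, if_neg h2]

theorem pelt1 {s : ℕ} (hs : 1 ≤ s) : Pelt (18 * s + 1) (3 * s) (X1 s) (Y1 s) := by
  constructor
  · omega
  · intro i hi
    rcases cases1 hs hi with ⟨r, hr, h1, h2, h3⟩ | ⟨r, hr, h1, h2, h3⟩ | ⟨r, hr, h1, h2, h3⟩ | ⟨h1, h2, h3⟩ <;>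
      (refine ⟨?_, ?_, ?_, ?_, ?_, ?_, ?_, ?_, ?_⟩ <;> omega)
  · intro i j hi hj h
    rcases cases1 hs hi with ⟨r, hr, h1, h2, h3⟩ | ⟨r, hr, h1, h2, h3⟩ | ⟨r, hr, h1, h2, h3⟩ | ⟨h1, h2, h3⟩ <;>
      rcases cases1 hs hj with ⟨r', hr', h1', h2', h3'⟩ | ⟨r', hr', h1', h2', h3'⟩ | ⟨r', hr', h1', h2', h3'⟩ | ⟨h1', h2', h3'⟩ <;> omega
  · intro i j hi hj h
    rcases cases1 hs hi with ⟨r, hr, h1, h2, h3⟩ | ⟨r, hr, h1, h2, h3⟩ | ⟨r, hr, h1, h2, h3⟩ | ⟨h1, h2, h3⟩ <;>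
      rcases cases1 hs hj with ⟨r', hr', h1', h2', h3'⟩ | ⟨r', hr', h1', h2', h3'⟩ | ⟨r', hr', h1', h2', h3'⟩ | ⟨h1', h2', h3'⟩ <;> omega
  · intro i j hi hj h
    rcases cases1 hs hi with ⟨r, hr, h1, h2, h3⟩ | ⟨r, hr, h1, h2, h3⟩ | ⟨r, hr, h1, h2, h3⟩ | ⟨h1, h2, h3⟩ <;>
      rcases cases1 hs hj with ⟨r', hr', h1', h2', h3'⟩ | ⟨r', hr', h1', h2', h3'⟩ | ⟨r', hr', h1', h2', h3'⟩ | ⟨h1', h2', h3'⟩ <;> omega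
  · intro i j hi hj
    rcases cases1 hs hi with ⟨r, hr, h1, h2, h3⟩ | ⟨r, hr, h1, h2, h3⟩ | ⟨r, hr, h1, h2, h3⟩ | ⟨h1, h2, h3⟩ <;>
      rcases cases1 hs hj with ⟨r', hr', h1', h2', h3'⟩ | ⟨r', hr', h1', h2', h3'⟩ | ⟨r', hr', h1', h2', h3'⟩ | ⟨h1', h2', h3'⟩ <;> (constructor <;> omega)
  · intro i j hi hj
    rcases cases1 hs hi with ⟨r, hr, h1, h2, h3⟩ | ⟨r, hr, h1, h2, h3⟩ | ⟨r, hr, h1, h2, h3⟩ | ⟨h1, h2, h3⟩ <;>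
      rcases cases1 hs hj with ⟨r', hr', h1', h2', h3'⟩ | ⟨r', hr', h1', h2', h3'⟩ | ⟨r', hr', h1', h2', h3'⟩ | ⟨h1', h2', h3'⟩ <;> (constructor <;> omega)
  · intro i j hi hj
    rcases cases1 hs hi with ⟨r, hr, h1, h2, h3⟩ | ⟨r, hr, h1, h2, h3⟩ | ⟨r, hr, h1, h2, h3⟩ | ⟨h1, h2, h3⟩ <;>
      rcases cases1 hs hj with ⟨r', hr', h1', h2', h3'⟩ | ⟨r', hr', h1', h2', h3'⟩ | ⟨r', hr', h1', h2', h3'⟩ | ⟨h1', h2', h3'⟩ <;> (constructor <;> omega)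

/-- First entries, class 7 mod 18. -/
def X7 (s i : ℕ) : ℕ :=
  if i < 0 + (s) then 3 * i + 1 else if i < s + (s) then 3 * (i - (s)) + 2 else if i < 2 * s + (s) then 3 * (i - (2 * s)) + 3 else 3 * s + 1

/-- Second entries, class 7 mod 18. -/
def Y7 (s i : ℕ) : ℕ :=
  if i < 0 + (s) then 8 * s - i + 3 else if i < s + (s) then 6 * s - 2 * (i - (s)) + 1 else if i < 2 * s + (s) then 4 * s - (i - (2 * s)) + 1 else 4 * s + 2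

theorem cases7 {s i : ℕ} (hs : 0 ≤ s) (hi : i < 3 * s + 1) :
    (∃ r, r < s ∧ i = 0 + r ∧ X7 s i = 3 * r + 1 ∧ Y7 s i = 8 * s - r + 3) ∨
    (∃ r, r < s ∧ i = s + r ∧ X7 s i = 3 * r + 2 ∧ Y7 s i = 6 * s - 2 * r + 1) ∨
    (∃ r, r < s ∧ i = 2 * s + r ∧ X7 s i = 3 * r + 3 ∧ Y7 s i = 4 * s - r + 1) ∨
    (i = 3 * s ∧ X7 s i = 3 * s + 1 ∧ Y7 s i = 4 * s + 2) := by
  unfold X7 Y7
  by_cases h0 : i < 0 + (s)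
  · refine Or.inl ⟨i, by omega, by omega, ?_, ?_⟩
    · rw [if_pos h0]
    · rw [if_pos h0]
  by_cases h1 : i < s + (s)
  · refine Or.inr <| Or.inl ⟨i - (s), by omega, by omega, ?_, ?_⟩
    · rw [if_neg h0, if_pos h1]
    · rw [if_neg h0, if_pos h1]
  by_cases h2 : i < 2 * s + (s)
  · refine Or.inr <| Or.inr <| Or.inl ⟨i - (2 * s), by omega, by omega, ?_, ?_⟩
    · rw [if_neg h0, if_neg h1, if_pos h2]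
    · rw [if_neg h0, if_neg h1, if_pos h2]
  refine Or.inr <| Or.inr <| Or.inr <| ⟨by omega, ?_, ?_⟩
  · rw [if_neg h0, if_neg h1, if_neg h2]
  · rw [if_neg h0, if_neg h1, if_neg h2]

theorem pelt7 {s : ℕ} (hs : 0 ≤ s) : Pelt (18 * s + 7) (3 * s + 1) (X7 s) (Y7 s) := by
  constructor
  · omega
  · intro i hi
    rcases cases7 hs hi with ⟨r, hr, h1, h2, h3⟩ | ⟨r, hr, h1, h2, h3⟩ | ⟨r, hr, h1, h2, h3⟩ | ⟨h1, h2, h3⟩ <;>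
      (refine ⟨?_, ?_, ?_, ?_, ?_, ?_, ?_, ?_, ?_⟩ <;> omega)
  · intro i j hi hj h
    rcases cases7 hs hi with ⟨r, hr, h1, h2, h3⟩ | ⟨r, hr, h1, h2, h3⟩ | ⟨r, hr, h1, h2, h3⟩ | ⟨h1, h2, h3⟩ <;>
      rcases cases7 hs hj with ⟨r', hr', h1', h2', h3'⟩ | ⟨r', hr', h1', h2', h3'⟩ | ⟨r', hr', h1', h2', h3'⟩ | ⟨h1', h2', h3'⟩ <;> omega
  · intro i j hi hj h
    rcases cases7 hs hi with ⟨r, hr, h1, h2, h3⟩ | ⟨r, hr, h1, h2, h3⟩ | ⟨r, hr, h1, h2, h3⟩ | ⟨h1, h2, h3⟩ <;>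
      rcases cases7 hs hj with ⟨r', hr', h1', h2', h3'⟩ | ⟨r', hr', h1', h2', h3'⟩ | ⟨r', hr', h1', h2', h3'⟩ | ⟨h1', h2', h3'⟩ <;> omega
  · intro i j hi hj h
    rcases cases7 hs hi with ⟨r, hr, h1, h2, h3⟩ | ⟨r, hr, h1, h2, h3⟩ | ⟨r, hr, h1, h2, h3⟩ | ⟨h1, h2, h3⟩ <;>
      rcases cases7 hs hj with ⟨r', hr', h1', h2', h3'⟩ | ⟨r', hr', h1', h2', h3'⟩ | ⟨r', hr', h1', h2', h3'⟩ | ⟨h1', h2', h3'⟩ <;> omega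
  · intro i j hi hj
    rcases cases7 hs hi with ⟨r, hr, h1, h2, h3⟩ | ⟨r, hr, h1, h2, h3⟩ | ⟨r, hr, h1, h2, h3⟩ | ⟨h1, h2, h3⟩ <;>
      rcases cases7 hs hj with ⟨r', hr', h1', h2', h3'⟩ | ⟨r', hr', h1', h2', h3'⟩ | ⟨r', hr', h1', h2', h3'⟩ | ⟨h1', h2', h3'⟩ <;> (constructor <;> omega)
  · intro i j hi hj
    rcases cases7 hs hi with ⟨r, hr, h1, h2, h3⟩ | ⟨r, hr, h1, h2, h3⟩ | ⟨r, hr, h1, h2, h3⟩ | ⟨h1, h2, h3⟩ <;>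
      rcases cases7 hs hj with ⟨r', hr', h1', h2', h3'⟩ | ⟨r', hr', h1', h2', h3'⟩ | ⟨r', hr', h1', h2', h3'⟩ | ⟨h1', h2', h3'⟩ <;> (constructor <;> omega)
  · intro i j hi hj
    rcases cases7 hs hi with ⟨r, hr, h1, h2, h3⟩ | ⟨r, hr, h1, h2, h3⟩ | ⟨r, hr, h1, h2, h3⟩ | ⟨h1, h2, h3⟩ <;>
      rcases cases7 hs hj with ⟨r', hr', h1', h2', h3'⟩ | ⟨r', hr', h1', h2', h3'⟩ | ⟨r', hr', h1', h2', h3'⟩ | ⟨h1', h2', h3'⟩ <;> (constructor <;> omega)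

/-- First entries, class 13 mod 18. -/
def X13 (s i : ℕ) : ℕ :=
  if i < 0 + (s) then 3 * i + 2 else if i < s + (s) then 3 * (i - (s)) + 3 else if i < 2 * s + (s + 1) then 3 * (i - (2 * s)) + 1 else 3 * s + 2

/-- Second entries, class 13 mod 18. -/
def Y13 (s i : ℕ) : ℕ :=
  if i < 0 + (s) then 6 * s - 2 * i + 3 else if i < s + (s) then 8 * s - (i - (s)) + 5 else if i < 2 * s + (s + 1) then 4 * s - (i - (2 * s)) + 3 else 7 * s + 5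

theorem cases13 {s i : ℕ} (hs : 0 ≤ s) (hi : i < 3 * s + 2) :
    (∃ r, r < s ∧ i = 0 + r ∧ X13 s i = 3 * r + 2 ∧ Y13 s i = 6 * s - 2 * r + 3) ∨
    (∃ r, r < s ∧ i = s + r ∧ X13 s i = 3 * r + 3 ∧ Y13 s i = 8 * s - r + 5) ∨
    (∃ r, r < s + 1 ∧ i = 2 * s + r ∧ X13 s i = 3 * r + 1 ∧ Y13 s i = 4 * s - r + 3) ∨
    (i = 3 * s + 1 ∧ X13 s i = 3 * s + 2 ∧ Y13 s i = 7 * s + 5) := by
  unfold X13 Y13
  by_cases h0 : i < 0 + (s)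
  · refine Or.inl ⟨i, by omega, by omega, ?_, ?_⟩
    · rw [if_pos h0]
    · rw [if_pos h0]
  by_cases h1 : i < s + (s)
  · refine Or.inr <| Or.inl ⟨i - (s), by omega, by omega, ?_, ?_⟩
    · rw [if_neg h0, if_pos h1]
    · rw [if_neg h0, if_pos h1]
  by_cases h2 : i < 2 * s + (s + 1)
  · refine Or.inr <| Or.inr <| Or.inl ⟨i - (2 * s), by omega, by omega, ?_, ?_⟩
    · rw [if_neg h0, if_neg h1, if_pos h2]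
    · rw [if_neg h0, if_neg h1, if_pos h2]
  refine Or.inr <| Or.inr <| Or.inr <| ⟨by omega, ?_, ?_⟩
  · rw [if_neg h0, if_neg h1, if_neg h2]
  · rw [if_neg h0, if_neg h1, if_neg h2]

theorem pelt13 {s : ℕ} (hs : 0 ≤ s) : Pelt (18 * s + 13) (3 * s + 2) (X13 s) (Y13 s) := by
  constructor
  · omega
  · intro i hi
    rcases cases13 hs hi with ⟨r, hr, h1, h2, h3⟩ | ⟨r, hr, h1, h2, h3⟩ | ⟨r, hr, h1, h2, h3⟩ | ⟨h1, h2, h3⟩ <;>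
      (refine ⟨?_, ?_, ?_, ?_, ?_, ?_, ?_, ?_, ?_⟩ <;> omega)
  · intro i j hi hj h
    rcases cases13 hs hi with ⟨r, hr, h1, h2, h3⟩ | ⟨r, hr, h1, h2, h3⟩ | ⟨r, hr, h1, h2, h3⟩ | ⟨h1, h2, h3⟩ <;>
      rcases cases13 hs hj with ⟨r', hr', h1', h2', h3'⟩ | ⟨r', hr', h1', h2', h3'⟩ | ⟨r', hr', h1', h2', h3'⟩ | ⟨h1', h2', h3'⟩ <;> omega
  · intro i j hi hj h
    rcases cases13 hs hi with ⟨r, hr, h1, h2, h3⟩ | ⟨r, hr, h1, h2, h3⟩ | ⟨r, hr, h1, h2, h3⟩ | ⟨h1, h2, h3⟩ <;>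
      rcases cases13 hs hj with ⟨r', hr', h1', h2', h3'⟩ | ⟨r', hr', h1', h2', h3'⟩ | ⟨r', hr', h1', h2', h3'⟩ | ⟨h1', h2', h3'⟩ <;> omega
  · intro i j hi hj h
    rcases cases13 hs hi with ⟨r, hr, h1, h2, h3⟩ | ⟨r, hr, h1, h2, h3⟩ | ⟨r, hr, h1, h2, h3⟩ | ⟨h1, h2, h3⟩ <;>
      rcases cases13 hs hj with ⟨r', hr', h1', h2', h3'⟩ | ⟨r', hr', h1', h2', h3'⟩ | ⟨r', hr', h1', h2', h3'⟩ | ⟨h1', h2', h3'⟩ <;> omega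
  · intro i j hi hj
    rcases cases13 hs hi with ⟨r, hr, h1, h2, h3⟩ | ⟨r, hr, h1, h2, h3⟩ | ⟨r, hr, h1, h2, h3⟩ | ⟨h1, h2, h3⟩ <;>
      rcases cases13 hs hj with ⟨r', hr', h1', h2', h3'⟩ | ⟨r', hr', h1', h2', h3'⟩ | ⟨r', hr', h1', h2', h3'⟩ | ⟨h1', h2', h3'⟩ <;> (constructor <;> omega)
  · intro i j hi hj
    rcases cases13 hs hi with ⟨r, hr, h1, h2, h3⟩ | ⟨r, hr, h1, h2, h3⟩ | ⟨r, hr, h1, h2, h3⟩ | ⟨h1, h2, h3⟩ <;>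
      rcases cases13 hs hj with ⟨r', hr', h1', h2', h3'⟩ | ⟨r', hr', h1', h2', h3'⟩ | ⟨r', hr', h1', h2', h3'⟩ | ⟨h1', h2', h3'⟩ <;> (constructor <;> omega)
  · intro i j hi hj
    rcases cases13 hs hi with ⟨r, hr, h1, h2, h3⟩ | ⟨r, hr, h1, h2, h3⟩ | ⟨r, hr, h1, h2, h3⟩ | ⟨h1, h2, h3⟩ <;>
      rcases cases13 hs hj with ⟨r', hr', h1', h2', h3'⟩ | ⟨r', hr', h1', h2', h3'⟩ | ⟨r', hr', h1', h2', h3'⟩ | ⟨h1', h2', h3'⟩ <;> (constructor <;> omega)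

/-- First entries, class 3 mod 18. -/
def X3 (s i : ℕ) : ℕ :=
  if i < 0 + (s) then 3 * i + 1 else if i < s + (s) then 3 * (i - (s)) + 2 else if i < 2 * s + (s) then 3 * (i - (2 * s)) + 3 else 1

/-- Second entries, class 3 mod 18. -/
def Y3 (s i : ℕ) : ℕ :=
  if i < 0 + (s) then 8 * s - i + 1 else if i < s + (s) then 4 * s - (i - (s)) else if i < 2 * s + (s) then 6 * s - 2 * (i - (2 * s)) - 1 else 1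

theorem cases3 {s i : ℕ} (hs : 0 ≤ s) (hi : i < 3 * s) :
    (∃ r, r < s ∧ i = 0 + r ∧ X3 s i = 3 * r + 1 ∧ Y3 s i = 8 * s - r + 1) ∨
    (∃ r, r < s ∧ i = s + r ∧ X3 s i = 3 * r + 2 ∧ Y3 s i = 4 * s - r) ∨
    (∃ r, r < s ∧ i = 2 * s + r ∧ X3 s i = 3 * r + 3 ∧ Y3 s i = 6 * s - 2 * r - 1) := by
  unfold X3 Y3
  by_cases h0 : i < 0 + (s)
  · refine Or.inl ⟨i, by omega, by omega, ?_, ?_⟩
    · rw [if_pos h0]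
    · rw [if_pos h0]
  by_cases h1 : i < s + (s)
  · refine Or.inr <| Or.inl ⟨i - (s), by omega, by omega, ?_, ?_⟩
    · rw [if_neg h0, if_pos h1]
    · rw [if_neg h0, if_pos h1]
  by_cases h2 : i < 2 * s + (s)
  · refine Or.inr <| Or.inr <| ⟨i - (2 * s), by omega, by omega, ?_, ?_⟩
    · rw [if_neg h0, if_neg h1, if_pos h2]
    · rw [if_neg h0, if_neg h1, if_pos h2]
  omega

theorem pelt3 {s : ℕ} (hs : 0 ≤ s) : Pelt (18 * s + 3) (3 * s) (X3 s) (Y3 s) := by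
  constructor
  · omega
  · intro i hi
    rcases cases3 hs hi with ⟨r, hr, h1, h2, h3⟩ | ⟨r, hr, h1, h2, h3⟩ | ⟨r, hr, h1, h2, h3⟩ <;>
      (refine ⟨?_, ?_, ?_, ?_, ?_, ?_, ?_, ?_, ?_⟩ <;> omega)
  · intro i j hi hj h
    rcases cases3 hs hi with ⟨r, hr, h1, h2, h3⟩ | ⟨r, hr, h1, h2, h3⟩ | ⟨r, hr, h1, h2, h3⟩ <;>
      rcases cases3 hs hj with ⟨r', hr', h1', h2', h3'⟩ | ⟨r', hr', h1', h2', h3'⟩ | ⟨r', hr', h1', h2', h3'⟩ <;> omega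
  · intro i j hi hj h
    rcases cases3 hs hi with ⟨r, hr, h1, h2, h3⟩ | ⟨r, hr, h1, h2, h3⟩ | ⟨r, hr, h1, h2, h3⟩ <;>
      rcases cases3 hs hj with ⟨r', hr', h1', h2', h3'⟩ | ⟨r', hr', h1', h2', h3'⟩ | ⟨r', hr', h1', h2', h3'⟩ <;> omega
  · intro i j hi hj h
    rcases cases3 hs hi with ⟨r, hr, h1, h2, h3⟩ | ⟨r, hr, h1, h2, h3⟩ | ⟨r, hr, h1, h2, h3⟩ <;>
      rcases cases3 hs hj with ⟨r', hr', h1', h2', h3'⟩ | ⟨r', hr', h1', h2', h3'⟩ | ⟨r', hr', h1', h2', h3'⟩ <;> omega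
  · intro i j hi hj
    rcases cases3 hs hi with ⟨r, hr, h1, h2, h3⟩ | ⟨r, hr, h1, h2, h3⟩ | ⟨r, hr, h1, h2, h3⟩ <;>
      rcases cases3 hs hj with ⟨r', hr', h1', h2', h3'⟩ | ⟨r', hr', h1', h2', h3'⟩ | ⟨r', hr', h1', h2', h3'⟩ <;> (constructor <;> omega)
  · intro i j hi hj
    rcases cases3 hs hi with ⟨r, hr, h1, h2, h3⟩ | ⟨r, hr, h1, h2, h3⟩ | ⟨r, hr, h1, h2, h3⟩ <;>
      rcases cases3 hs hj with ⟨r', hr', h1', h2', h3'⟩ | ⟨r', hr', h1', h2', h3'⟩ | ⟨r', hr', h1', h2', h3'⟩ <;> (constructor <;> omega)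
  · intro i j hi hj
    rcases cases3 hs hi with ⟨r, hr, h1, h2, h3⟩ | ⟨r, hr, h1, h2, h3⟩ | ⟨r, hr, h1, h2, h3⟩ <;>
      rcases cases3 hs hj with ⟨r', hr', h1', h2', h3'⟩ | ⟨r', hr', h1', h2', h3'⟩ | ⟨r', hr', h1', h2', h3'⟩ <;> (constructor <;> omega)

/-- First entries, class 9 mod 18. -/
def X9 (s i : ℕ) : ℕ :=
  if i < 0 + (s + 1) then 3 * i + 1 else if i < s + 1 + (s - 3) then 3 * ((i - (s + 1)) + 2) + 2 else if i < 2 * s - 2 + (s - 2) then 3 * ((i - (2 * s - 2)) + 1) + 3 else if i = 3 * s - 4 then 2 else if i = 3 * s - 3 then 3 else if i = 3 * s - 2 then 5 else if i = 3 * s - 1 then 3 * s - 1 else 3 * s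

/-- Second entries, class 9 mod 18. -/
def Y9 (s i : ℕ) : ℕ :=
  if i < 0 + (s + 1) then 4 * s - i + 3 else if i < s + 1 + (s - 3) then 8 * s - ((i - (s + 1)) + 2) + 2 else if i < 2 * s - 2 + (s - 2) then 6 * s - 2 * ((i - (2 * s - 2)) + 1) + 1 else if i = 3 * s - 4 then 8 * s + 3 else if i = 3 * s - 3 then 8 * s + 1 else if i = 3 * s - 2 then 8 * s + 2 else if i = 3 * s - 1 then 3 * s + 2 else 7 * s + 3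

theorem cases9 {s i : ℕ} (hs : 3 ≤ s) (hi : i < 3 * s + 1) :
    (∃ r, r < s + 1 ∧ i = 0 + r ∧ X9 s i = 3 * r + 1 ∧ Y9 s i = 4 * s - r + 3) ∨
    (∃ r, r < s - 3 ∧ i = s + 1 + r ∧ X9 s i = 3 * (r + 2) + 2 ∧ Y9 s i = 8 * s - (r + 2) + 2) ∨
    (∃ r, r < s - 2 ∧ i = 2 * s - 2 + r ∧ X9 s i = 3 * (r + 1) + 3 ∧ Y9 s i = 6 * s - 2 * (r + 1) + 1) ∨
    (i = 3 * s - 4 ∧ X9 s i = 2 ∧ Y9 s i = 8 * s + 3) ∨
    (i = 3 * s - 3 ∧ X9 s i = 3 ∧ Y9 s i = 8 * s + 1) ∨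
    (i = 3 * s - 2 ∧ X9 s i = 5 ∧ Y9 s i = 8 * s + 2) ∨
    (i = 3 * s - 1 ∧ X9 s i = 3 * s - 1 ∧ Y9 s i = 3 * s + 2) ∨
    (i = 3 * s ∧ X9 s i = 3 * s ∧ Y9 s i = 7 * s + 3) := by
  unfold X9 Y9
  by_cases h0 : i < 0 + (s + 1)
  · refine Or.inl ⟨i, by omega, by omega, ?_, ?_⟩
    · rw [if_pos h0]
    · rw [if_pos h0]
  by_cases h1 : i < s + 1 + (s - 3)
  · refine Or.inr <| Or.inl ⟨i - (s + 1), by omega, by omega, ?_, ?_⟩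
    · rw [if_neg h0, if_pos h1]
    · rw [if_neg h0, if_pos h1]
  by_cases h2 : i < 2 * s - 2 + (s - 2)
  · refine Or.inr <| Or.inr <| Or.inl ⟨i - (2 * s - 2), by omega, by omega, ?_, ?_⟩
    · rw [if_neg h0, if_neg h1, if_pos h2]
    · rw [if_neg h0, if_neg h1, if_pos h2]
  by_cases h3 : i = 3 * s - 4
  · refine Or.inr <| Or.inr <| Or.inr <| Or.inl ⟨h3, ?_, ?_⟩
    · rw [if_neg h0, if_neg h1, if_neg h2, if_pos h3]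
    · rw [if_neg h0, if_neg h1, if_neg h2, if_pos h3]
  by_cases h4 : i = 3 * s - 3
  · refine Or.inr <| Or.inr <| Or.inr <| Or.inr <| Or.inl ⟨h4, ?_, ?_⟩
    · rw [if_neg h0, if_neg h1, if_neg h2, if_neg h3, if_pos h4]
    · rw [if_neg h0, if_neg h1, if_neg h2, if_neg h3, if_pos h4]
  by_cases h5 : i = 3 * s - 2
  · refine Or.inr <| Or.inr <| Or.inr <| Or.inr <| Or.inr <| Or.inl ⟨h5, ?_, ?_⟩
    · rw [if_neg h0, if_neg h1, if_neg h2, if_neg h3, if_neg h4, if_pos h5]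
    · rw [if_neg h0, if_neg h1, if_neg h2, if_neg h3, if_neg h4, if_pos h5]
  by_cases h6 : i = 3 * s - 1
  · refine Or.inr <| Or.inr <| Or.inr <| Or.inr <| Or.inr <| Or.inr <| Or.inl ⟨h6, ?_, ?_⟩
    · rw [if_neg h0, if_neg h1, if_neg h2, if_neg h3, if_neg h4, if_neg h5, if_pos h6]
    · rw [if_neg h0, if_neg h1, if_neg h2, if_neg h3, if_neg h4, if_neg h5, if_pos h6]
  refine Or.inr <| Or.inr <| Or.inr <| Or.inr <| Or.inr <| Or.inr <| Or.inr <| ⟨by omega, ?_, ?_⟩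
  · rw [if_neg h0, if_neg h1, if_neg h2, if_neg h3, if_neg h4, if_neg h5, if_neg h6]
  · rw [if_neg h0, if_neg h1, if_neg h2, if_neg h3, if_neg h4, if_neg h5, if_neg h6]

theorem pelt9 {s : ℕ} (hs : 3 ≤ s) : Pelt (18 * s + 9) (3 * s + 1) (X9 s) (Y9 s) := by
  constructor
  · omega
  · intro i hi
    rcases cases9 hs hi with ⟨r, hr, h1, h2, h3⟩ | ⟨r, hr, h1, h2, h3⟩ | ⟨r, hr, h1, h2, h3⟩ | ⟨h1, h2, h3⟩ | ⟨h1, h2, h3⟩ | ⟨h1, h2, h3⟩ | ⟨h1, h2, h3⟩ | ⟨h1, h2, h3⟩ <;>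
      (refine ⟨?_, ?_, ?_, ?_, ?_, ?_, ?_, ?_, ?_⟩ <;> omega)
  · intro i j hi hj h
    rcases cases9 hs hi with ⟨r, hr, h1, h2, h3⟩ | ⟨r, hr, h1, h2, h3⟩ | ⟨r, hr, h1, h2, h3⟩ | ⟨h1, h2, h3⟩ | ⟨h1, h2, h3⟩ | ⟨h1, h2, h3⟩ | ⟨h1, h2, h3⟩ | ⟨h1, h2, h3⟩ <;>
      rcases cases9 hs hj with ⟨r', hr', h1', h2', h3'⟩ | ⟨r', hr', h1', h2', h3'⟩ | ⟨r', hr', h1', h2', h3'⟩ | ⟨h1', h2', h3'⟩ | ⟨h1', h2', h3'⟩ | ⟨h1', h2', h3'⟩ | ⟨h1', h2', h3'⟩ | ⟨h1', h2', h3'⟩ <;> omega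
  · intro i j hi hj h
    rcases cases9 hs hi with ⟨r, hr, h1, h2, h3⟩ | ⟨r, hr, h1, h2, h3⟩ | ⟨r, hr, h1, h2, h3⟩ | ⟨h1, h2, h3⟩ | ⟨h1, h2, h3⟩ | ⟨h1, h2, h3⟩ | ⟨h1, h2, h3⟩ | ⟨h1, h2, h3⟩ <;>
      rcases cases9 hs hj with ⟨r', hr', h1', h2', h3'⟩ | ⟨r', hr', h1', h2', h3'⟩ | ⟨r', hr', h1', h2', h3'⟩ | ⟨h1', h2', h3'⟩ | ⟨h1', h2', h3'⟩ | ⟨h1', h2', h3'⟩ | ⟨h1', h2', h3'⟩ | ⟨h1', h2', h3'⟩ <;> omega
  · intro i j hi hj h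
    rcases cases9 hs hi with ⟨r, hr, h1, h2, h3⟩ | ⟨r, hr, h1, h2, h3⟩ | ⟨r, hr, h1, h2, h3⟩ | ⟨h1, h2, h3⟩ | ⟨h1, h2, h3⟩ | ⟨h1, h2, h3⟩ | ⟨h1, h2, h3⟩ | ⟨h1, h2, h3⟩ <;>
      rcases cases9 hs hj with ⟨r', hr', h1', h2', h3'⟩ | ⟨r', hr', h1', h2', h3'⟩ | ⟨r', hr', h1', h2', h3'⟩ | ⟨h1', h2', h3'⟩ | ⟨h1', h2', h3'⟩ | ⟨h1', h2', h3'⟩ | ⟨h1', h2', h3'⟩ | ⟨h1', h2', h3'⟩ <;> omega
  · intro i j hi hj
    rcases cases9 hs hi with ⟨r, hr, h1, h2, h3⟩ | ⟨r, hr, h1, h2, h3⟩ | ⟨r, hr, h1, h2, h3⟩ | ⟨h1, h2, h3⟩ | ⟨h1, h2, h3⟩ | ⟨h1, h2, h3⟩ | ⟨h1, h2, h3⟩ | ⟨h1, h2, h3⟩ <;>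
      rcases cases9 hs hj with ⟨r', hr', h1', h2', h3'⟩ | ⟨r', hr', h1', h2', h3'⟩ | ⟨r', hr', h1', h2', h3'⟩ | ⟨h1', h2', h3'⟩ | ⟨h1', h2', h3'⟩ | ⟨h1', h2', h3'⟩ | ⟨h1', h2', h3'⟩ | ⟨h1', h2', h3'⟩ <;> (constructor <;> omega)
  · intro i j hi hj
    rcases cases9 hs hi with ⟨r, hr, h1, h2, h3⟩ | ⟨r, hr, h1, h2, h3⟩ | ⟨r, hr, h1, h2, h3⟩ | ⟨h1, h2, h3⟩ | ⟨h1, h2, h3⟩ | ⟨h1, h2, h3⟩ | ⟨h1, h2, h3⟩ | ⟨h1, h2, h3⟩ <;>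
      rcases cases9 hs hj with ⟨r', hr', h1', h2', h3'⟩ | ⟨r', hr', h1', h2', h3'⟩ | ⟨r', hr', h1', h2', h3'⟩ | ⟨h1', h2', h3'⟩ | ⟨h1', h2', h3'⟩ | ⟨h1', h2', h3'⟩ | ⟨h1', h2', h3'⟩ | ⟨h1', h2', h3'⟩ <;> (constructor <;> omega)
  · intro i j hi hj
    rcases cases9 hs hi with ⟨r, hr, h1, h2, h3⟩ | ⟨r, hr, h1, h2, h3⟩ | ⟨r, hr, h1, h2, h3⟩ | ⟨h1, h2, h3⟩ | ⟨h1, h2, h3⟩ | ⟨h1, h2, h3⟩ | ⟨h1, h2, h3⟩ | ⟨h1, h2, h3⟩ <;>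
      rcases cases9 hs hj with ⟨r', hr', h1', h2', h3'⟩ | ⟨r', hr', h1', h2', h3'⟩ | ⟨r', hr', h1', h2', h3'⟩ | ⟨h1', h2', h3'⟩ | ⟨h1', h2', h3'⟩ | ⟨h1', h2', h3'⟩ | ⟨h1', h2', h3'⟩ | ⟨h1', h2', h3'⟩ <;> (constructor <;> omega)

/-- First entries, class 15 mod 18. -/
def X15 (s i : ℕ) : ℕ :=
  if i < 0 + (s + 1) then 3 * i + 1 else if i < s + 1 + (s + 1) then 3 * (i - (s + 1)) + 2 else if i < 2 * s + 2 + (s) then 3 * (i - (2 * s + 2)) + 3 else 1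

/-- Second entries, class 15 mod 18. -/
def Y15 (s i : ℕ) : ℕ :=
  if i < 0 + (s + 1) then 4 * s - i + 3 else if i < s + 1 + (s + 1) then 8 * s - (i - (s + 1)) + 6 else if i < 2 * s + 2 + (s) then 6 * s - 2 * (i - (2 * s + 2)) + 3 else 1

theorem cases15 {s i : ℕ} (hs : 0 ≤ s) (hi : i < 3 * s + 2) :
    (∃ r, r < s + 1 ∧ i = 0 + r ∧ X15 s i = 3 * r + 1 ∧ Y15 s i = 4 * s - r + 3) ∨
    (∃ r, r < s + 1 ∧ i = s + 1 + r ∧ X15 s i = 3 * r + 2 ∧ Y15 s i = 8 * s - r + 6) ∨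
    (∃ r, r < s ∧ i = 2 * s + 2 + r ∧ X15 s i = 3 * r + 3 ∧ Y15 s i = 6 * s - 2 * r + 3) := by
  unfold X15 Y15
  by_cases h0 : i < 0 + (s + 1)
  · refine Or.inl ⟨i, by omega, by omega, ?_, ?_⟩
    · rw [if_pos h0]
    · rw [if_pos h0]
  by_cases h1 : i < s + 1 + (s + 1)
  · refine Or.inr <| Or.inl ⟨i - (s + 1), by omega, by omega, ?_, ?_⟩
    · rw [if_neg h0, if_pos h1]
    · rw [if_neg h0, if_pos h1]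
  by_cases h2 : i < 2 * s + 2 + (s)
  · refine Or.inr <| Or.inr <| ⟨i - (2 * s + 2), by omega, by omega, ?_, ?_⟩
    · rw [if_neg h0, if_neg h1, if_pos h2]
    · rw [if_neg h0, if_neg h1, if_pos h2]
  omega

theorem pelt15 {s : ℕ} (hs : 0 ≤ s) : Pelt (18 * s + 15) (3 * s + 2) (X15 s) (Y15 s) := by
  constructor
  · omega
  · intro i hi
    rcases cases15 hs hi with ⟨r, hr, h1, h2, h3⟩ | ⟨r, hr, h1, h2, h3⟩ | ⟨r, hr, h1, h2, h3⟩ <;>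
      (refine ⟨?_, ?_, ?_, ?_, ?_, ?_, ?_, ?_, ?_⟩ <;> omega)
  · intro i j hi hj h
    rcases cases15 hs hi with ⟨r, hr, h1, h2, h3⟩ | ⟨r, hr, h1, h2, h3⟩ | ⟨r, hr, h1, h2, h3⟩ <;>
      rcases cases15 hs hj with ⟨r', hr', h1', h2', h3'⟩ | ⟨r', hr', h1', h2', h3'⟩ | ⟨r', hr', h1', h2', h3'⟩ <;> omega
  · intro i j hi hj h
    rcases cases15 hs hi with ⟨r, hr, h1, h2, h3⟩ | ⟨r, hr, h1, h2, h3⟩ | ⟨r, hr, h1, h2, h3⟩ <;>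
      rcases cases15 hs hj with ⟨r', hr', h1', h2', h3'⟩ | ⟨r', hr', h1', h2', h3'⟩ | ⟨r', hr', h1', h2', h3'⟩ <;> omega
  · intro i j hi hj h
    rcases cases15 hs hi with ⟨r, hr, h1, h2, h3⟩ | ⟨r, hr, h1, h2, h3⟩ | ⟨r, hr, h1, h2, h3⟩ <;>
      rcases cases15 hs hj with ⟨r', hr', h1', h2', h3'⟩ | ⟨r', hr', h1', h2', h3'⟩ | ⟨r', hr', h1', h2', h3'⟩ <;> omega
  · intro i j hi hj
    rcases cases15 hs hi with ⟨r, hr, h1, h2, h3⟩ | ⟨r, hr, h1, h2, h3⟩ | ⟨r, hr, h1, h2, h3⟩ <;>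
      rcases cases15 hs hj with ⟨r', hr', h1', h2', h3'⟩ | ⟨r', hr', h1', h2', h3'⟩ | ⟨r', hr', h1', h2', h3'⟩ <;> (constructor <;> omega)
  · intro i j hi hj
    rcases cases15 hs hi with ⟨r, hr, h1, h2, h3⟩ | ⟨r, hr, h1, h2, h3⟩ | ⟨r, hr, h1, h2, h3⟩ <;>
      rcases cases15 hs hj with ⟨r', hr', h1', h2', h3'⟩ | ⟨r', hr', h1', h2', h3'⟩ | ⟨r', hr', h1', h2', h3'⟩ <;> (constructor <;> omega)
  · intro i j hi hj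
    rcases cases15 hs hi with ⟨r, hr, h1, h2, h3⟩ | ⟨r, hr, h1, h2, h3⟩ | ⟨r, hr, h1, h2, h3⟩ <;>
      rcases cases15 hs hj with ⟨r', hr', h1', h2', h3'⟩ | ⟨r', hr', h1', h2', h3'⟩ | ⟨r', hr', h1', h2', h3'⟩ <;> (constructor <;> omega)

theorem exists_pelt {n : ℕ} (hn : 46 ≤ n) (h : n % 6 = 1 ∨ n % 6 = 3) :
    ∃ x y : ℕ → ℕ, Pelt n (n / 6) x y := by
  have h18 : n % 18 = 1 ∨ n % 18 = 7 ∨ n % 18 = 13 ∨ n % 18 = 3 ∨ n % 18 = 9 ∨ n % 18 = 15 := by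
    omega
  obtain ⟨s, hs⟩ : ∃ s, s = n / 18 := ⟨_, rfl⟩
  rcases h18 with h' | h' | h' | h' | h' | h'

  · have e1 : n = 18 * s + 1 := by omega
    have e2 : n / 6 = 3 * s := by omega
    refine ⟨X1 s, Y1 s, ?_⟩
    rw [e2, e1]
    exact pelt1 (by omega)
  · have e1 : n = 18 * s + 7 := by omega
    have e2 : n / 6 = 3 * s + 1 := by omega
    refine ⟨X7 s, Y7 s, ?_⟩
    rw [e2, e1]
    exact pelt7 (by omega)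
  · have e1 : n = 18 * s + 13 := by omega
    have e2 : n / 6 = 3 * s + 2 := by omega
    refine ⟨X13 s, Y13 s, ?_⟩
    rw [e2, e1]
    exact pelt13 (by omega)
  · have e1 : n = 18 * s + 3 := by omega
    have e2 : n / 6 = 3 * s := by omega
    refine ⟨X3 s, Y3 s, ?_⟩
    rw [e2, e1]
    exact pelt3 (by omega)
  · have e1 : n = 18 * s + 9 := by omega
    have e2 : n / 6 = 3 * s + 1 := by omega
    refine ⟨X9 s, Y9 s, ?_⟩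
    rw [e2, e1]
    exact pelt9 (by omega)
  · have e1 : n = 18 * s + 15 := by omega
    have e2 : n / 6 = 3 * s + 2 := by omega
    refine ⟨X15 s, Y15 s, ?_⟩
    rw [e2, e1]
    exact pelt15 (by omega)

end Pool.Agent.H151R2.STS
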