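import Pool.Agent.H151R2.STS.Aut
import Pool.Agent.H151R2.STS.Peltesohn

/-!
# Counting isomorphism classes of cyclic Steiner triple systems
-/

namespace Pool.Agent.H151R2.STS

theorem isCyc_of_translate {n : ℕ} [NeZero n] {B : Set (Set (ZMod n))}
    (h : ∀ c : ZMod n, img (Equiv.addRight c) B = B) : IsCyc B := by
  refine ⟨Equiv.addRight 1, h 1, fun x y => ⟨(y - x).val, ?_⟩⟩
  have key : ∀ k : ℕ, ((Equiv.addRight (1 : ZMod n)) ^ k : Equiv.Perm (ZMod n)) x = x + k := by
    intro k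
    induction k with
    | zero => simp
    | succ k ih =>
      rw [pow_succ', Equiv.Perm.mul_apply, ih, Equiv.coe_addRight]
      push_cast; ring
  rw [key, ZMod.natCast_zmod_val]
  ring

/-- Translation invariant families isomorphic to a given one through isomorphisms transporting the
unit translation to the same permutation coincide. -/
theorem eq_of_conj {n : ℕ} [NeZero n] {B B' B₀ : Set (Set (ZMod n))}
    (h : ∀ c : ZMod n, img (Equiv.addRight c) B = B) {σ σ' : ZMod n ≃ ZMod n}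
    (hσ : img σ B = B₀) (hσ' : img σ' B' = B₀)
    (hc : (σ.symm.trans (Equiv.addRight 1)).trans σ =
      (σ'.symm.trans (Equiv.addRight 1)).trans σ') : B = B' := by
  have hρ : ∀ x : ZMod n, σ'.symm (σ (x + 1)) = σ'.symm (σ x) + 1 := by
    intro x
    have h1 := congrArg (fun e : ZMod n ≃ ZMod n => e (σ x)) hc
    simp only [Equiv.trans_apply, Equiv.symm_apply_apply, Equiv.coe_addRight] at h1
    rw [h1, Equiv.symm_apply_apply]
  have hρ' : ∀ k : ℕ, σ'.symm (σ (k : ZMod n)) = (k : ZMod n) + σ'.symm (σ 0) := by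
    intro k
    induction k with
    | zero => simp
    | succ k ih => push_cast; rw [hρ, ih]; ring
  have hρ'' : σ.trans σ'.symm = Equiv.addRight (σ'.symm (σ 0)) := by
    ext x
    have := hρ' x.val
    rw [ZMod.natCast_zmod_val] at this
    simpa using this
  have h1 : img (σ.trans σ'.symm) B = B' := by
    rw [← img_img, hσ]; exact img_symm σ' _ _ hσ'
  rw [← h1, hρ'', h]

theorem count_main {n : ℕ} [NeZero n] {k : ℕ} (F : (Fin k → Bool) → Set (Set (ZMod n)))
    (hF : Function.Injective F) (hS : ∀ T, IsSTS (F T))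
    (hT : ∀ T (c : ZMod n), img (Equiv.addRight c) (F T) = F T) :
    2 ^ k ≤ Nat.card (Quotient (isoSetoid (ZMod n))) * n ^ Nat.log 2 (n + 1) := by
  classical
  have : Fintype (Quotient (isoSetoid (ZMod n))) := Fintype.ofFinite _
  let G : (Fin k → Bool) → CycSTS (ZMod n) := fun T => ⟨F T, hS T, isCyc_of_translate (hT T)⟩
  let q : (Fin k → Bool) → Quotient (isoSetoid (ZMod n)) := fun T => Quotient.mk _ (G T)
  have hfib : ∀ a : Quotient (isoSetoid (ZMod n)),
      ((Finset.univ : Finset (Fin k → Bool)).filter (fun T => q T = a)).card ≤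
        n ^ Nat.log 2 (n + 1) := by
    intro a
    obtain ⟨B₀, rfl⟩ := Quotient.exists_rep a
    have hiso : ∀ T, ∃ σ : ZMod n ≃ ZMod n, q T = Quotient.mk _ B₀ → img σ (F T) = B₀.1 := by
      intro T
      by_cases h : q T = Quotient.mk _ B₀
      · have h' : Iso (G T).1 B₀.1 := Quotient.exact h
        obtain ⟨σ, hσ⟩ := h'
        exact ⟨σ, fun _ => hσ⟩
      · exact ⟨Equiv.refl _, fun h' => absurd h' h⟩
    choose σ hσ using hiso
    have hle := aut_le B₀.2.1 (n := n) (by simp) (Nat.pos_of_ne_zero (NeZero.ne n))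
    refine le_trans ?_ hle
    rw [← Set.ncard_coe_finset]
    refine Set.ncard_le_ncard_of_injOn
      (fun T => ((σ T).symm.trans (Equiv.addRight 1)).trans (σ T)) ?_ ?_
    · intro T hT'
      simp only [Finset.coe_filter, Finset.mem_univ, true_and, Set.mem_ofPred_eq] at hT' ⊢
      have h1 := hσ T hT'
      rw [← img_img, ← img_img, img_symm _ _ _ h1, hT T 1, h1]
    · intro T hT1 T' hT2 heq
      simp only [Finset.coe_filter, Finset.mem_univ, true_and, Set.mem_ofPred_eq] at hT1 hT2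
      exact hF (eq_of_conj (hT T) (hσ T hT1) (hσ T' hT2) heq)
  have h1 := Finset.card_le_mul_card_image (f := q) (Finset.univ : Finset (Fin k → Bool))
    (n ^ Nat.log 2 (n + 1)) (fun a _ => hfib a)
  have h2 : (Finset.univ : Finset (Fin k → Bool)).card = 2 ^ k := by simp
  rw [h2] at h1
  calc 2 ^ k ≤ n ^ Nat.log 2 (n + 1) * (Finset.univ.image q).card := h1
    _ ≤ n ^ Nat.log 2 (n + 1) * Nat.card (Quotient (isoSetoid (ZMod n))) := by
        apply Nat.mul_le_mul_left
        rw [Nat.card_eq_fintype_card]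
        exact Finset.card_le_univ _
    _ = _ := mul_comm _ _

/-- The explicit lower bound. -/
theorem two_pow_le {n : ℕ} (hn : 46 ≤ n) (h : n % 6 = 1 ∨ n % 6 = 3) :
    2 ^ (n / 6) ≤ C n * n ^ Nat.log 2 (n + 1) := by
  obtain ⟨x, y, hP⟩ := exists_pelt hn h
  have : NeZero n := ⟨by omega⟩
  obtain ⟨F, hF, hS, hT⟩ := hP.many
  have key := count_main F hF hS hT
  obtain ⟨m, rfl⟩ : ∃ m, n = m + 1 := ⟨n - 1, by omega⟩
  exact key

theorem arith (L : ℕ) (hL : 11 ≤ L) : 12 * ((L + 1) * L) + 1 ≤ 2 ^ L := by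
  induction L, hL using Nat.le_induction with
  | base => norm_num
  | succ L hL ih =>
    rw [pow_succ]
    nlinarith

/-- `C n` tends to infinity. -/
theorem tendsto_C (M : ℕ) : ∃ N, ∀ n, N ≤ n → n % 6 = 1 ∨ n % 6 = 3 → M ≤ C n := by
  refine ⟨max (2 ^ 11) (12 * M), fun n hn h => ?_⟩
  have hn1 : 2 ^ 11 ≤ n := le_trans (le_max_left _ _) hn
  have hn2 : 12 * M ≤ n := le_trans (le_max_right _ _) hn
  set L := Nat.log 2 (n + 1) with hLdef
  have hL : 11 ≤ L := Nat.le_log_of_pow_le (by norm_num) (by omega)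
  have hL1 : 2 ^ L ≤ n + 1 := Nat.pow_log_le_self 2 (by omega)
  have hL2 : n + 1 < 2 ^ (L + 1) := Nat.lt_pow_succ_log_self (by norm_num) _
  have h1 := arith L hL
  have h2 := two_pow_le (n := n) (by norm_num at hn1; omega) h
  have h3 : n ^ L ≤ 2 ^ ((L + 1) * L) := by
    rw [pow_mul]
    exact Nat.pow_le_pow_left (by omega) L
  have h4 : M ≤ 2 ^ M := Nat.lt_two_pow_self.le
  have h5 : M + (L + 1) * L ≤ n / 6 := by
    rw [Nat.le_div_iff_mul_le (by norm_num)]
    omega
  have h6 : M * 2 ^ ((L + 1) * L) ≤ C n * 2 ^ ((L + 1) * L) :=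
    calc M * 2 ^ ((L + 1) * L) ≤ 2 ^ M * 2 ^ ((L + 1) * L) := Nat.mul_le_mul_right _ h4
      _ = 2 ^ (M + (L + 1) * L) := by rw [pow_add]
      _ ≤ 2 ^ (n / 6) := Nat.pow_le_pow_right (by norm_num) h5
      _ ≤ C n * n ^ L := h2
      _ ≤ C n * 2 ^ ((L + 1) * L) := Nat.mul_le_mul_left _ h3
  exact Nat.le_of_mul_le_mul_right h6 (by positivity)

end Pool.Agent.H151R2.STS
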