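import Mathlib

/-!
# Cyclic Steiner triple systems: definitions
-/

namespace Pool.Agent.H151R2.STS

/-- A Steiner triple system on the point set `V`: a family of 3-element subsets such that every pair
of distinct points lies in exactly one member. -/
def IsSTS {V : Type} (B : Set (Set V)) : Prop :=
  (∀ b ∈ B, b.ncard = 3) ∧ ∀ x y : V, x ≠ y → ∃! b : Set V, b ∈ B ∧ x ∈ b ∧ y ∈ b

/-- The image of a family of subsets under a bijection of the points. -/
def img {V : Type} (σ : V ≃ V) (B : Set (Set V)) : Set (Set V) := (fun b : Set V => σ '' b) '' B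

/-- The family has an automorphism permuting all the points in one cycle. -/
def IsCyc {V : Type} (B : Set (Set V)) : Prop :=
  ∃ g : V ≃ V, img g B = B ∧ ∀ x y : V, ∃ k : ℕ, (g ^ k : Equiv.Perm V) x = y

/-- Cyclic Steiner triple systems on `V`. -/
abbrev CycSTS (V : Type) : Type := {B : Set (Set V) // IsSTS B ∧ IsCyc B}

/-- Isomorphism of families of subsets. -/
def Iso {V : Type} (B B' : Set (Set V)) : Prop := ∃ σ : V ≃ V, img σ B = B'

theorem img_one {V : Type} (B : Set (Set V)) : img (Equiv.refl V) B = B := by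
  unfold img; simp

theorem img_img {V : Type} (σ τ : V ≃ V) (B : Set (Set V)) :
    img τ (img σ B) = img (σ.trans τ) B := by
  unfold img
  rw [Set.image_image]
  congr 1
  funext b
  rw [Set.image_image]; rfl

theorem img_symm {V : Type} (σ : V ≃ V) (B B' : Set (Set V)) (h : img σ B = B') :
    img σ.symm B' = B := by
  rw [← h, img_img, Equiv.self_trans_symm, img_one]

/-- Isomorphism as an equivalence relation on cyclic Steiner triple systems. -/
def isoSetoid (V : Type) : Setoid (CycSTS V) where
  r B B' := Iso B.1 B'.1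
  iseqv :=
    ⟨fun B => ⟨Equiv.refl V, img_one _⟩,
     fun {B B'} ⟨σ, h⟩ => ⟨σ.symm, img_symm σ _ _ h⟩,
     fun {B B' B''} ⟨σ, h⟩ ⟨τ, h'⟩ => ⟨σ.trans τ, by rw [← h', ← h, img_img]⟩⟩

/-- `C n`: the number of isomorphism classes of cyclic Steiner triple systems with `n` points. -/
noncomputable def C (n : ℕ) : ℕ := Nat.card (Quotient (isoSetoid (Fin n)))

end Pool.Agent.H151R2.STS
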