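import Pool.Agent.H151R2.STS.Defs

/-!
# Cyclic Steiner triple systems from a third-point function
-/

namespace Pool.Agent.H151R2.STS

variable {G : Type} [AddCommGroup G]

/-- Axioms of a third-point function. -/
structure IsDelta (δ : G → G) : Prop where
  ne_zero : ∀ d, d ≠ 0 → δ d ≠ 0
  ne_self : ∀ d, d ≠ 0 → δ d ≠ d
  invol : ∀ d, d ≠ 0 → δ (δ d) = d
  neg : ∀ d, d ≠ 0 → δ (-d) = δ d - d

/-- The blocks of a third-point function. -/
def blocks (δ : G → G) : Set (Set G) := {b | ∃ u d : G, d ≠ 0 ∧ b = {u, u + d, u + δ d}}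

theorem IsDelta.third {δ : G → G} (h : IsDelta δ) {d : G} (hd : d ≠ 0) :
    δ (δ d - d) = -d := by
  have hd' : -d ≠ 0 := neg_ne_zero.mpr hd
  have := h.invol (-d) hd'
  rwa [h.neg d hd] at this

theorem IsDelta.third' {δ : G → G} (h : IsDelta δ) {d : G} (hd : d ≠ 0) :
    δ (-δ d) = d - δ d := by
  rw [h.neg _ (h.ne_zero d hd), h.invol d hd]

theorem IsDelta.third'' {δ : G → G} (h : IsDelta δ) {d : G} (hd : d ≠ 0) :
    δ (d - δ d) = -δ d := by
  have h1 := h.third' hd
  have := h.invol (-δ d) (neg_ne_zero.mpr (h.ne_zero d hd))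
  rwa [h1] at this

theorem mem_blocks_unique {δ : G → G} (h : IsDelta δ) {x y : G} (hxy : x ≠ y) {b : Set G}
    (hb : b ∈ blocks δ) (hx : x ∈ b) (hy : y ∈ b) : b = {x, y, x + δ (y - x)} := by
  obtain ⟨u, d, hd, rfl⟩ := hb
  simp only [Set.mem_insert_iff, Set.mem_singleton_iff] at hx hy
  have h1 := h.third hd
  have h2 := h.third' hd
  have h3 := h.third'' hd
  have h4 := h.invol d hd
  have h5 := h.neg d hd
  rcases hx with rfl | rfl | rfl <;> rcases hy with rfl | rfl | rfl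
  · exact absurd rfl hxy
  · rw [add_sub_cancel_left]
  · rw [add_sub_cancel_left, h4]
    ext z; simp only [Set.mem_insert_iff, Set.mem_singleton_iff]; tauto
  · rw [show y - (y + d) = -d by abel, h5, show y + d + (δ d - d) = y + δ d by abel]
    ext z; simp only [Set.mem_insert_iff, Set.mem_singleton_iff]; tauto
  · exact absurd rfl hxy
  · rw [show u + δ d - (u + d) = δ d - d by abel, h1, show u + d + -d = u by abel]
    ext z; simp only [Set.mem_insert_iff, Set.mem_singleton_iff]; tauto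
  · rw [show y - (y + δ d) = -δ d by abel, h2, show y + δ d + (d - δ d) = y + d by abel]
    ext z; simp only [Set.mem_insert_iff, Set.mem_singleton_iff]; tauto
  · rw [show u + d - (u + δ d) = d - δ d by abel, h3, show u + δ d + -δ d = u by abel]
    ext z; simp only [Set.mem_insert_iff, Set.mem_singleton_iff]; tauto
  · exact absurd rfl hxy

theorem isSTS_blocks {δ : G → G} (h : IsDelta δ) : IsSTS (blocks δ) := by
  constructor
  · rintro b ⟨u, d, hd, rfl⟩
    rw [Set.ncard_eq_three]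
    refine ⟨u, u + d, u + δ d, ?_, ?_, ?_, rfl⟩
    · simpa using hd
    · simpa using h.ne_zero d hd
    · simpa using (h.ne_self d hd).symm
  · intro x y hxy
    refine ⟨{x, y, x + δ (y - x)}, ⟨⟨x, y - x, sub_ne_zero.mpr hxy.symm, ?_⟩, by simp, by simp⟩, ?_⟩
    · rw [add_sub_cancel]
    · rintro b ⟨hb, hx, hy⟩
      exact mem_blocks_unique h hxy hb hx hy

theorem blocks_translate {δ : G → G} (c : G) : img (Equiv.addRight c) (blocks δ) = blocks δ := by
  have key : ∀ c : G, img (Equiv.addRight c) (blocks δ) ⊆ blocks δ := by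
    rintro c _ ⟨b, ⟨u, d, hd, rfl⟩, rfl⟩
    refine ⟨u + c, d, hd, ?_⟩
    simp only [Set.image_insert_eq, Set.image_singleton, Equiv.coe_addRight]
    rw [add_right_comm u d c, add_right_comm u (δ d) c]
  apply Set.Subset.antisymm (key c)
  intro b hb
  have h1 := key (-c) ⟨b, hb, rfl⟩
  refine ⟨_, h1, ?_⟩
  simp only
  rw [← Set.image_comp]
  have e : (⇑(Equiv.addRight c) ∘ ⇑(Equiv.addRight (-c)) : G → G) = id := by
    funext x; simp
  rw [e, Set.image_id]

theorem blocks_inj {δ δ' : G → G} (h : IsDelta δ) (h' : IsDelta δ') (he : blocks δ = blocks δ')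
    {d : G} (hd : d ≠ 0) : δ d = δ' d := by
  have h1 : ({0, 0 + d, 0 + δ d} : Set G) ∈ blocks δ' := by
    rw [← he]; exact ⟨0, d, hd, rfl⟩
  have h2 := mem_blocks_unique h' (x := 0) (y := d) hd.symm h1 (by simp) (by simp)
  have h3 : δ d ∈ ({0, d, 0 + δ' (d - 0)} : Set G) := by rw [← h2]; simp
  simp only [Set.mem_insert_iff, Set.mem_singleton_iff, sub_zero, zero_add] at h3
  rcases h3 with h3 | h3 | h3
  · exact absurd h3 (h.ne_zero d hd)
  · exact absurd h3 (h.ne_self d hd)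
  · exact h3

/-- The two pairings of the six roles. -/
def pr (t : Bool) : Fin 6 → Fin 6 :=
  if t then ![4, 5, 3, 2, 0, 1] else ![5, 3, 4, 1, 2, 0]

/-- The six signed differences of a base triple. -/
def ev (p q : G) : Fin 6 → G := ![p, q, -(p + q), -p, -q, p + q]

/-- Third-point function from a family of base triples and a choice of orientations. -/
noncomputable def mkδ {ι : Type} (p q : ι → G) (T : ι → Bool) (d : G) : G := by
  classical
  exact if h : ∃ i : ι × Fin 6, ev (p i.1) (q i.1) i.2 = d then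
    ev (p h.choose.1) (q h.choose.1) (pr (T h.choose.1) h.choose.2) else -d

variable {ι : Type} {p q : ι → G}

theorem mkδ_ev (hinj : Function.Injective (fun i : ι × Fin 6 => ev (p i.1) (q i.1) i.2))
    (T : ι → Bool) (i : ι) (r : Fin 6) :
    mkδ p q T (ev (p i) (q i) r) = ev (p i) (q i) (pr (T i) r) := by
  unfold mkδ
  have h : ∃ j : ι × Fin 6, ev (p j.1) (q j.1) j.2 = ev (p i) (q i) r := ⟨(i, r), rfl⟩
  rw [dif_pos h]
  have hc : h.choose = (i, r) := hinj h.choose_spec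
  rw [hc]

theorem mkδ_not {d : G} (T : ι → Bool) (h : ¬ ∃ i : ι × Fin 6, ev (p i.1) (q i.1) i.2 = d) :
    mkδ p q T d = -d := by
  unfold mkδ
  rw [dif_neg h]

theorem neg_ev (a b : G) (r : Fin 6) : -ev a b r = ev a b (![3, 4, 5, 0, 1, 2] r) := by
  fin_cases r <;> simp [ev]

theorem pr_pr (t : Bool) (r : Fin 6) : pr t (pr t r) = r := by
  cases t <;> revert r <;> decide

theorem pr_ne (t : Bool) (r : Fin 6) : pr t r ≠ r := by
  cases t <;> revert r <;> decide

theorem ev_neg_pr (a b : G) (t : Bool) (r : Fin 6) :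
    ev a b (pr t (![3, 4, 5, 0, 1, 2] r)) = ev a b (pr t r) - ev a b r := by
  cases t <;> fin_cases r <;> simp [ev, pr] <;> abel

theorem isDelta_mkδ (hinj : Function.Injective (fun i : ι × Fin 6 => ev (p i.1) (q i.1) i.2))
    (h0 : ∀ i : ι × Fin 6, ev (p i.1) (q i.1) i.2 ≠ 0)
    (h3 : ∀ d : G, d ≠ 0 → (¬ ∃ i : ι × Fin 6, ev (p i.1) (q i.1) i.2 = d) → d + d + d = 0)
    (h2 : ∀ d : G, d ≠ 0 → -d ≠ d) (T : ι → Bool) : IsDelta (mkδ p q T) := by
  have hneg : ∀ d : G, (¬ ∃ i : ι × Fin 6, ev (p i.1) (q i.1) i.2 = d) →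
      ¬ ∃ i : ι × Fin 6, ev (p i.1) (q i.1) i.2 = -d := by
    rintro d hd ⟨⟨i, r⟩, hi⟩
    apply hd
    refine ⟨(i, ![3, 4, 5, 0, 1, 2] r), ?_⟩
    simp only at hi ⊢
    rw [← neg_ev, hi, neg_neg]
  constructor
  · intro d hd
    by_cases h : ∃ i : ι × Fin 6, ev (p i.1) (q i.1) i.2 = d
    · obtain ⟨⟨i, r⟩, rfl⟩ := h
      simp only
      rw [mkδ_ev hinj]
      exact h0 (i, _)
    · rw [mkδ_not T h]
      exact neg_ne_zero.mpr hd
  · intro d hd
    by_cases h : ∃ i : ι × Fin 6, ev (p i.1) (q i.1) i.2 = d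
    · obtain ⟨⟨i, r⟩, rfl⟩ := h
      simp only
      rw [mkδ_ev hinj]
      intro he
      have := hinj (a₁ := (i, pr (T i) r)) (a₂ := (i, r)) he
      exact pr_ne (T i) r (Prod.ext_iff.mp this).2
    · rw [mkδ_not T h]
      exact h2 d hd
  · intro d hd
    by_cases h : ∃ i : ι × Fin 6, ev (p i.1) (q i.1) i.2 = d
    · obtain ⟨⟨i, r⟩, rfl⟩ := h
      simp only
      rw [mkδ_ev hinj, mkδ_ev hinj, pr_pr]
    · rw [mkδ_not T h, mkδ_not T (hneg d h), neg_neg]
  · intro d hd
    by_cases h : ∃ i : ι × Fin 6, ev (p i.1) (q i.1) i.2 = d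
    · obtain ⟨⟨i, r⟩, rfl⟩ := h
      simp only
      rw [neg_ev, mkδ_ev hinj, mkδ_ev hinj, ev_neg_pr]
    · rw [mkδ_not T h, mkδ_not T (hneg d h), neg_neg]
      have := h3 d hd h
      have e : d = -d - d + (d + d + d) := by abel
      conv_lhs => rw [e, this, add_zero]

theorem mkδ_inj (hinj : Function.Injective (fun i : ι × Fin 6 => ev (p i.1) (q i.1) i.2))
    {T T' : ι → Bool} (h0 : ∀ i : ι × Fin 6, ev (p i.1) (q i.1) i.2 ≠ 0)
    (h : ∀ d : G, d ≠ 0 → mkδ p q T d = mkδ p q T' d) : T = T' := by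
  funext i
  have h1 := h (ev (p i) (q i) 0) (h0 (i, 0))
  rw [mkδ_ev hinj, mkδ_ev hinj] at h1
  have h2 := hinj (a₁ := (i, pr (T i) 0)) (a₂ := (i, pr (T' i) 0)) h1
  have h3 := (Prod.ext_iff.mp h2).2
  simp only at h3
  revert h3
  cases T i <;> cases T' i <;> simp [pr]

end Pool.Agent.H151R2.STS
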