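import Pool.Agent.H151R2.STS.Delta

/-!
# Cyclic Steiner triple systems from base triples of residues
-/

namespace Pool.Agent.H151R2.STS

/-- Numerical data: `k` base triples `x i, y i, x i + y i` whose `3 k` differences up to sign are
pairwise distinct modulo `n` and different from `n / 3`. -/
structure Pelt (n k : ℕ) (x y : ℕ → ℕ) : Prop where
  hn : n = 6 * k + 1 ∨ n = 6 * k + 3
  pos : ∀ i, i < k → 0 < x i ∧ 0 < y i ∧ x i + y i < n ∧ 3 * x i ≠ n ∧ 3 * y i ≠ n ∧
    3 * (x i + y i) ≠ n ∧ 3 * x i ≠ 2 * n ∧ 3 * y i ≠ 2 * n ∧ 3 * (x i + y i) ≠ 2 * n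
  xx : ∀ i j, i < k → j < k → (x i = x j ∨ x i + x j = n) → i = j
  yy : ∀ i j, i < k → j < k → (y i = y j ∨ y i + y j = n) → i = j
  zz : ∀ i j, i < k → j < k → (x i + y i = x j + y j ∨ (x i + y i) + (x j + y j) = n) → i = j
  xy : ∀ i j, i < k → j < k → x i ≠ y j ∧ x i + y j ≠ n
  xz : ∀ i j, i < k → j < k → x i ≠ x j + y j ∧ x i + (x j + y j) ≠ n
  yz : ∀ i j, i < k → j < k → y i ≠ x j + y j ∧ y i + (x j + y j) ≠ n

theorem cast_eq {n w w' : ℕ} (hw : w < n) (hw' : w' < n) (h : (w : ZMod n) = (w' : ZMod n)) :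
    w = w' := by
  have := (ZMod.natCast_eq_natCast_iff' w w' n).1 h
  rwa [Nat.mod_eq_of_lt hw, Nat.mod_eq_of_lt hw'] at this

theorem cast_eq_neg {n w w' : ℕ} (hw0 : 0 < w) (hw : w < n) (hw' : w' < n)
    (h : (w : ZMod n) = -(w' : ZMod n)) : w + w' = n := by
  have h1 : ((w + w' : ℕ) : ZMod n) = 0 := by push_cast; rw [h]; ring
  rw [ZMod.natCast_eq_zero_iff] at h1
  obtain ⟨c, hc⟩ := h1
  have : c = 1 := by
    rcases c with _ | _ | c
    · simp at hc; omega
    · rfl
    · exfalso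
      have : n * (c + 1 + 1) = n * c + 2 * n := by ring
      rw [this] at hc
      have : 0 ≤ n * c := Nat.zero_le _
      omega
  rw [this] at hc; omega

/-- The difference number `a` of the `i`-th base triple. -/
def df (x y : ℕ → ℕ) (i : ℕ) : Fin 3 → ℕ := ![x i, y i, x i + y i]

/-- The role of a signed difference. -/
def rol : Fin 6 → Fin 3 := ![0, 1, 2, 0, 1, 2]

/-- The sign of a signed difference (`true` for minus). -/
def sg : Fin 6 → Bool := ![false, false, true, true, true, false]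

theorem rol_sg (r r' : Fin 6) (h : rol r = rol r') (h' : sg r = sg r') : r = r' := by
  revert r r'; decide

theorem ev_eq {n : ℕ} (x y : ℕ → ℕ) (i : ℕ) (r : Fin 6) :
    ev ((x i : ℕ) : ZMod n) ((y i : ℕ) : ZMod n) r =
      if sg r then -((df x y i (rol r) : ℕ) : ZMod n) else ((df x y i (rol r) : ℕ) : ZMod n) := by
  fin_cases r <;> simp [ev, sg, rol, df]

variable {n k : ℕ} {x y : ℕ → ℕ}

theorem Pelt.df_pos (P : Pelt n k x y) {i : ℕ} (hi : i < k) (a : Fin 3) :
    0 < df x y i a ∧ df x y i a < n ∧ 3 * df x y i a ≠ n ∧ 3 * df x y i a ≠ 2 * n := by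
  obtain ⟨h1, h2, h3, h4, h5, h6, h7, h8, h9⟩ := P.pos i hi
  fin_cases a <;> simp only [df] <;> simp <;> refine ⟨?_, ?_, ?_, ?_⟩ <;> omega

theorem Pelt.df_inj (P : Pelt n k x y) {i j : ℕ} (hi : i < k) (hj : j < k) {a b : Fin 3}
    (h : df x y i a = df x y j b ∨ df x y i a + df x y j b = n) : i = j ∧ a = b := by
  have h1 := P.xx i j hi hj
  have h2 := P.yy i j hi hj
  have h3 := P.zz i j hi hj
  have h4 := P.xy i j hi hj
  have h5 := P.xz i j hi hj
  have h6 := P.yz i j hi hj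
  have h4' := P.xy j i hj hi
  have h5' := P.xz j i hj hi
  have h6' := P.yz j i hj hi
  fin_cases a <;> fin_cases b <;> simp [df] at h ⊢ <;> omega

theorem Pelt.inj (P : Pelt n k x y) :
    Function.Injective (fun i : Fin k × Fin 6 =>
      ev (((x i.1 : ℕ) : ZMod n)) (((y i.1 : ℕ) : ZMod n)) i.2) := by
  have hodd : ∀ w : ℕ, w + w ≠ n := by
    intro w; rcases P.hn with h | h <;> omega
  rintro ⟨i, r⟩ ⟨j, r'⟩ h
  simp only [ev_eq] at h
  have hi := P.df_pos i.2 (rol r)
  have hj := P.df_pos j.2 (rol r')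
  have key : (df x y i (rol r) = df x y j (rol r') ∧ sg r = sg r') ∨
      (df x y i (rol r) + df x y j (rol r') = n ∧ sg r ≠ sg r') := by
    cases h1 : sg r <;> cases h2 : sg r' <;> simp only [h1, h2] at h <;> simp at h
    · left; exact ⟨cast_eq hi.2.1 hj.2.1 h, rfl⟩
    · right; exact ⟨cast_eq_neg hi.1 hi.2.1 hj.2.1 h, by simp⟩
    · right
      refine ⟨cast_eq_neg hi.1 hi.2.1 hj.2.1 ?_, by simp⟩
      rw [← h, neg_neg]
    · left; exact ⟨cast_eq hi.2.1 hj.2.1 h, rfl⟩
  have h' := P.df_inj i.2 j.2 (a := rol r) (b := rol r') (by tauto)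
  obtain ⟨h3, h4⟩ := h'
  have h5 : i = j := Fin.ext h3
  subst h5
  rcases key with ⟨-, h6⟩ | ⟨h6, -⟩
  · rw [rol_sg r r' h4 h6]
  · rw [h4] at h6
    exact absurd h6 (hodd _)

theorem Pelt.nz (P : Pelt n k x y) (i : Fin k × Fin 6) :
    ev (((x i.1 : ℕ) : ZMod n)) (((y i.1 : ℕ) : ZMod n)) i.2 ≠ 0 := by
  have hi := P.df_pos i.1.2 (rol i.2)
  rw [ev_eq]
  have h : ((df x y i.1 (rol i.2) : ℕ) : ZMod n) ≠ 0 := by
    rw [Ne, ZMod.natCast_eq_zero_iff]
    exact Nat.not_dvd_of_pos_of_lt hi.1 hi.2.1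
  split_ifs
  · exact neg_ne_zero.mpr h
  · exact h

theorem Pelt.three (P : Pelt n k x y) (i : Fin k × Fin 6) :
    3 * ev (((x i.1 : ℕ) : ZMod n)) (((y i.1 : ℕ) : ZMod n)) i.2 ≠ 0 := by
  have hi := P.df_pos i.1.2 (rol i.2)
  rw [ev_eq]
  have h : 3 * ((df x y i.1 (rol i.2) : ℕ) : ZMod n) ≠ 0 := by
    have : 3 * ((df x y i.1 (rol i.2) : ℕ) : ZMod n) =
      ((3 * df x y i.1 (rol i.2) : ℕ) : ZMod n) := by push_cast; rfl
    rw [this, Ne, ZMod.natCast_eq_zero_iff]
    rintro ⟨c, hc⟩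
    rcases c with _ | _ | _ | c
    · omega
    · omega
    · omega
    · have : n * (c + 1 + 1 + 1) = n * c + 3 * n := by ring
      rw [this] at hc
      have : 0 ≤ n * c := Nat.zero_le _
      omega
  split_ifs
  · rw [mul_neg]; exact neg_ne_zero.mpr h
  · exact h

theorem Pelt.rest (P : Pelt n k x y) (d : ZMod n) (hd : d ≠ 0)
    (hr : ¬ ∃ i : Fin k × Fin 6, ev (((x i.1 : ℕ) : ZMod n)) (((y i.1 : ℕ) : ZMod n)) i.2 = d) :
    d + d + d = 0 := by
  classical
  have hn0 : n ≠ 0 := by rcases P.hn with h | h <;> omega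
  haveI : NeZero n := ⟨hn0⟩
  by_contra h3
  set R : Finset (ZMod n) := Finset.univ.image (fun i : Fin k × Fin 6 =>
      ev (((x i.1 : ℕ) : ZMod n)) (((y i.1 : ℕ) : ZMod n)) i.2) with hR
  have hRc : R.card = k * 6 := by
    rw [hR, Finset.card_image_of_injective _ P.inj]; simp
  have hRm : ∀ e, e ∈ R → e ≠ 0 ∧ 3 * e ≠ 0 := by
    intro e he
    rw [hR, Finset.mem_image] at he
    obtain ⟨i, -, rfl⟩ := he
    exact ⟨P.nz i, P.three i⟩
  have hdR : d ∉ R := by
    rw [hR, Finset.mem_image]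
    rintro ⟨i, -, hi⟩
    exact hr ⟨i, hi⟩
  have hd3 : 3 * d ≠ 0 := by
    intro h; apply h3; rw [← h]; ring
  have hcard : ∀ s : Finset (ZMod n), s.card ≤ n := by
    intro s
    have := Finset.card_le_univ s
    rwa [ZMod.card] at this
  rcases P.hn with h | h
  · have h0 : (0 : ZMod n) ∉ insert d R := by
      rw [Finset.mem_insert]
      rintro (h' | h')
      · exact hd h'.symm
      · exact (hRm 0 h').1 rfl
    have := hcard (insert 0 (insert d R))
    rw [Finset.card_insert_of_notMem h0, Finset.card_insert_of_notMem hdR, hRc] at this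
    omega
  · set e : ZMod n := ((2 * k + 1 : ℕ) : ZMod n) with he
    have he3 : 3 * e = 0 := by
      have : 3 * e = ((3 * (2 * k + 1) : ℕ) : ZMod n) := by rw [he]; push_cast; rfl
      rw [this, ZMod.natCast_eq_zero_iff]
      exact ⟨1, by omega⟩
    have hene : e ≠ 0 := by
      rw [he, Ne, ZMod.natCast_eq_zero_iff]
      exact Nat.not_dvd_of_pos_of_lt (by omega) (by omega)
    have h2e : -e ≠ e := by
      intro h'
      have h4 : e + e = 0 := by
        nth_rewrite 1 [← h']; ring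
      have : e = 0 := by
        have h5 : 3 * e - (e + e) = e := by ring
        rw [← h5, he3, h4, sub_zero]
      exact hene this
    have hn3 : ∀ f : ZMod n, 3 * f = 0 → f ∉ R := fun f hf hfR => (hRm f hfR).2 hf
    have a1 : (0 : ZMod n) ∉ insert d R := by
      rw [Finset.mem_insert]
      rintro (h' | h')
      · exact hd h'.symm
      · exact (hRm 0 h').1 rfl
    have a2 : e ∉ insert 0 (insert d R) := by
      rw [Finset.mem_insert, Finset.mem_insert]
      rintro (h' | h' | h')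
      · exact hene h'
      · exact hd3 (h' ▸ he3)
      · exact hn3 e he3 h'
    have a3 : -e ∉ insert e (insert 0 (insert d R)) := by
      rw [Finset.mem_insert, Finset.mem_insert, Finset.mem_insert]
      rintro (h' | h' | h' | h')
      · exact h2e h'
      · exact hene (neg_eq_zero.mp h')
      · apply hd3; rw [← h', mul_neg, he3, neg_zero]
      · exact hn3 (-e) (by rw [mul_neg, he3, neg_zero]) h'
    have := hcard (insert (-e) (insert e (insert 0 (insert d R))))
    rw [Finset.card_insert_of_notMem a3, Finset.card_insert_of_notMem a2,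
      Finset.card_insert_of_notMem a1, Finset.card_insert_of_notMem hdR, hRc] at this
    omega

theorem Pelt.two (P : Pelt n k x y) (d : ZMod n) (hd : d ≠ 0) : -d ≠ d := by
  intro h
  have h2 : d + d = 0 := by
    nth_rewrite 1 [← h]; ring
  obtain ⟨m, hm⟩ : ∃ m, n = 2 * m + 1 := by
    rcases P.hn with h | h
    · exact ⟨3 * k, by omega⟩
    · exact ⟨3 * k + 1, by omega⟩
  have h3 : ((n : ℕ) : ZMod n) = 0 := ZMod.natCast_self n
  have h4 : ((2 * m + 1 : ℕ) : ZMod n) * d = 0 := by rw [← hm, h3, zero_mul]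
  apply hd
  push_cast at h4
  have h5 : (2 * (m : ZMod n) + 1) * d = (m : ZMod n) * (d + d) + d := by ring
  rw [h5, h2, mul_zero, zero_add] at h4
  exact h4

/-- Many translation invariant Steiner triple systems. -/
theorem Pelt.many (P : Pelt n k x y) : ∃ F : (Fin k → Bool) → Set (Set (ZMod n)),
    Function.Injective F ∧ (∀ T, IsSTS (F T)) ∧ ∀ T c, img (Equiv.addRight c) (F T) = F T := by
  have hδ : ∀ T : Fin k → Bool, IsDelta (mkδ (fun i : Fin k => ((x i : ℕ) : ZMod n))
      (fun i : Fin k => ((y i : ℕ) : ZMod n)) T) := fun T =>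
    isDelta_mkδ P.inj P.nz P.rest P.two T
  refine ⟨fun T => blocks (mkδ (fun i : Fin k => ((x i : ℕ) : ZMod n))
      (fun i : Fin k => ((y i : ℕ) : ZMod n)) T), ?_, fun T => isSTS_blocks (hδ T),
      fun T c => blocks_translate c⟩
  intro T T' h
  exact mkδ_inj P.inj P.nz (fun d hd => blocks_inj (hδ T) (hδ T') h hd)

end Pool.Agent.H151R2.STS
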